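import Pool.Agent.helper70.KU.Defs

/-! Elementary monotonicity inequalities for `sinh`, `cosh`, `sin` (MP_c048c3_co). -/

namespace C048

open Real

lemma nonneg_of_hasDerivAt {f f' : ℝ → ℝ} (hf : ∀ x, HasDerivAt f (f' x) x) (h0 : 0 ≤ f 0)
    {B : ℝ} (h : ∀ x, 0 < x → x < B → 0 ≤ f' x) {x : ℝ} (hx : 0 ≤ x) (hB : x ≤ B) : 0 ≤ f x := by
  have hm : MonotoneOn f (Set.Icc 0 B) := by
    apply monotoneOn_of_deriv_nonneg (convex_Icc 0 B)
    · exact fun y _ => (hf y).continuousAt.continuousWithinAt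
    · exact fun y _ => (hf y).differentiableAt.differentiableWithinAt
    · intro y hy
      rw [interior_Icc] at hy
      rw [(hf y).deriv]
      exact h y hy.1 hy.2
  have := hm ⟨le_rfl, hx.trans hB⟩ ⟨hx, hB⟩ hx
  linarith

/-- `sinh z ≤ z cosh z` -/
lemma sinh_le_mul_cosh {z : ℝ} (hz : 0 ≤ z) : sinh z ≤ z * cosh z := by
  have := nonneg_of_hasDerivAt (f := fun z => z * cosh z - sinh z) (f' := fun z => z * sinh z)
    (fun x => by
      have h := ((hasDerivAt_id x).mul (hasDerivAt_cosh x)).sub (hasDerivAt_sinh x)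
      refine h.congr_deriv ?_
      simp) (by simp) (B := z) (fun x hx _ => mul_nonneg hx.le (sinh_nonneg_iff.2 hx.le)) hz le_rfl
  linarith

/-- `z cosh z - sinh z ≤ sinh³ z / 3` -/
lemma mul_cosh_sub_sinh_le {z : ℝ} (hz : 0 ≤ z) : z * cosh z - sinh z ≤ sinh z ^ 3 / 3 := by
  have := nonneg_of_hasDerivAt (f := fun z => sinh z ^ 3 / 3 - (z * cosh z - sinh z))
    (f' := fun z => sinh z ^ 2 * cosh z - z * sinh z)
    (fun x => by
      have h := (((hasDerivAt_sinh x).pow 3).div_const 3).sub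
        (((hasDerivAt_id x).mul (hasDerivAt_cosh x)).sub (hasDerivAt_sinh x))
      refine h.congr_deriv ?_
      simp
      ring) (by simp) (B := z) (fun x hx _ => by
        have h1 : x ≤ sinh x := self_le_sinh_iff.2 hx.le
        have h2 : 0 ≤ sinh x := hx.le.trans h1
        have h3 := one_le_cosh x
        nlinarith [mul_nonneg h2 h2, mul_nonneg (sub_nonneg.2 h1) h2,
          mul_nonneg (mul_nonneg h2 h2) (sub_nonneg.2 h3)]) hz le_rfl
  linarith

/-- `sin³ a / 3 ≤ sin a - a cos a` on `[0,π]` -/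
lemma sin_cube_le {a : ℝ} (ha : 0 ≤ a) (ha' : a ≤ π) : sin a ^ 3 / 3 ≤ sin a - a * cos a := by
  have := nonneg_of_hasDerivAt (f := fun a => (sin a - a * cos a) - sin a ^ 3 / 3)
    (f' := fun a => a * sin a - sin a ^ 2 * cos a)
    (fun x => by
      have h := ((hasDerivAt_sin x).sub ((hasDerivAt_id x).mul (hasDerivAt_cos x))).sub
        (((hasDerivAt_sin x).pow 3).div_const 3)
      refine h.congr_deriv ?_
      simp
      ring) (by simp) (B := π) (fun x hx hx' => by
        have h1 : sin x ≤ x := sin_le hx.le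
        have h2 : 0 ≤ sin x := sin_nonneg_of_nonneg_of_le_pi hx.le hx'.le
        have h3 := cos_le_one x
        nlinarith [mul_nonneg h2 h2, mul_nonneg (sub_nonneg.2 h1) h2,
          mul_nonneg (mul_nonneg h2 h2) (sub_nonneg.2 h3)]) ha ha'
  linarith

/-- concavity: `(a/b) sin b ≤ sin a` for `0 ≤ a ≤ b ≤ π`. -/
lemma mul_sin_le {a b : ℝ} (ha : 0 ≤ a) (hab : a ≤ b) (hb : b ≤ π) : a * sin b ≤ b * sin a := by
  rcases ha.eq_or_lt with rfl | ha0
  · simp
  have hb0 : 0 < b := ha0.trans_le hab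
  have h := strictConcaveOn_sin_Icc.concaveOn.2 (⟨le_rfl, pi_pos.le⟩ : (0:ℝ) ∈ Set.Icc 0 π)
    (⟨hb0.le, hb⟩ : b ∈ Set.Icc 0 π)
    (show 0 ≤ 1 - a / b by rw [sub_nonneg, div_le_one hb0]; exact hab)
    (show 0 ≤ a / b by positivity) (by ring)
  simp only [smul_eq_mul, mul_zero, sin_zero, zero_add] at h
  rw [div_mul_cancel₀ _ hb0.ne', div_mul_eq_mul_div, div_le_iff₀ hb0] at h
  linarith

/-- convexity: `sinh a / a ≤ sinh b / b` for `0 ≤ a ≤ b`. -/
lemma mul_sinh_le {a b : ℝ} (ha : 0 ≤ a) (hab : a ≤ b) : b * sinh a ≤ a * sinh b := by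
  rcases ha.eq_or_lt with rfl | ha0
  · simp
  have hb0 : 0 < b := ha0.trans_le hab
  have hm : MonotoneOn (fun x => sinh x / x) (Set.Icc a b) := by
    have hd : ∀ x, 0 < x → HasDerivAt (fun x => sinh x / x) ((cosh x * x - sinh x * 1) / x ^ 2) x :=
      fun x hx => (hasDerivAt_sinh x).div (hasDerivAt_id x) hx.ne'
    apply monotoneOn_of_deriv_nonneg (convex_Icc a b)
    · exact fun y hy => (hd y (ha0.trans_le hy.1)).continuousAt.continuousWithinAt
    · rw [interior_Icc]
      exact fun y hy => (hd y (ha0.trans hy.1)).differentiableAt.differentiableWithinAt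
    · intro y hy
      rw [interior_Icc] at hy
      have hy0 := ha0.trans hy.1
      rw [(hd y hy0).deriv]
      have := sinh_le_mul_cosh hy0.le
      apply div_nonneg _ (by positivity)
      linarith
  have h := hm ⟨le_rfl, hab⟩ ⟨hab, le_rfl⟩ hab
  simp only at h
  rw [div_le_div_iff₀ ha0 hb0] at h
  linarith

/-- `3 sinh s ≤ s (cosh s + 2)` -/
lemma three_sinh_le {s : ℝ} (hs : 0 ≤ s) : 3 * sinh s ≤ s * (cosh s + 2) := by
  have h1 : ∀ s : ℝ, 0 ≤ s → 0 ≤ 2 + s * sinh s - 2 * cosh s := fun s hs => by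
    have := nonneg_of_hasDerivAt (f := fun s => 2 + s * sinh s - 2 * cosh s)
      (f' := fun s => s * cosh s - sinh s)
      (fun x => by
        have h := ((((hasDerivAt_id x).mul (hasDerivAt_sinh x)).const_add 2)).sub
          ((hasDerivAt_cosh x).const_mul 2)
        refine h.congr_deriv ?_
        simp
        ring) (by simp) (B := s) (fun x hx _ => by
          have := sinh_le_mul_cosh hx.le
          linarith) hs le_rfl
    simpa using this
  have := nonneg_of_hasDerivAt (f := fun s => s * (cosh s + 2) - 3 * sinh s)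
    (f' := fun s => 2 + s * sinh s - 2 * cosh s)
    (fun x => by
      have h := ((hasDerivAt_id x).mul ((hasDerivAt_cosh x).add_const 2)).sub
        ((hasDerivAt_sinh x).const_mul 3)
      refine h.congr_deriv ?_
      simp
      ring) (by simp) (B := s) (fun x hx _ => h1 x hx.le) hs le_rfl
  linarith

/-- `(5 - 2 z²) sinh³ z ≤ 15 (z cosh z - sinh z)` -/
lemma quartic_ineq {z : ℝ} (hz : 0 ≤ z) :
    (5 - 2 * z ^ 2) * sinh z ^ 3 ≤ 15 * (z * cosh z - sinh z) := by
  have hd2 : ∀ x : ℝ, HasDerivAt (fun x : ℝ => 2 * x) 2 x := fun x => by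
    simpa using (hasDerivAt_id x).const_mul (2 : ℝ)
  have hS : ∀ x : ℝ, HasDerivAt (fun x : ℝ => sinh (2 * x)) (cosh (2 * x) * 2) x := fun x =>
    (hd2 x).sinh
  have hC : ∀ x : ℝ, HasDerivAt (fun x : ℝ => cosh (2 * x)) (sinh (2 * x) * 2) x := fun x =>
    (hd2 x).cosh
  have hsq : ∀ x : ℝ, HasDerivAt (fun x : ℝ => x ^ 2) (2 * x) x := fun x => by
    simpa using hasDerivAt_pow 2 x
  have h1 : ∀ z : ℝ, 0 ≤ z → 0 ≤ 13 - 13 * cosh (2 * z) + 10 * (z * sinh (2 * z))
      + 6 * (z ^ 2 * cosh (2 * z)) := fun z hz => by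
    have := nonneg_of_hasDerivAt (f := fun z => 13 - 13 * cosh (2 * z) + 10 * (z * sinh (2 * z))
      + 6 * (z ^ 2 * cosh (2 * z)))
      (f' := fun z => -16 * sinh (2 * z) + 32 * z * cosh (2 * z) + 12 * z ^ 2 * sinh (2 * z))
      (fun x => by
        have h := ((((hC x).const_mul 13).const_sub 13).add
          (((hasDerivAt_id x).mul (hS x)).const_mul 10)).add (((hsq x).mul (hC x)).const_mul 6)
        refine h.congr_deriv ?_
        simp
        ring) (by simp) (B := z) (fun x hx _ => by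
          have h3 := sinh_le_mul_cosh (z := 2 * x) (by positivity)
          have h4 : 0 ≤ sinh (2 * x) := sinh_nonneg_iff.2 (by positivity)
          have h5 : 0 ≤ 12 * x ^ 2 * sinh (2 * x) := by positivity
          linarith) hz le_rfl
    simpa using this
  have h2 : ∀ z : ℝ, 0 ≤ z → 0 ≤ 13 * z + 2 * (z * cosh (2 * z)) - 15 / 2 * sinh (2 * z)
      + 3 * (z ^ 2 * sinh (2 * z)) := fun z hz => by
    have := nonneg_of_hasDerivAt (f := fun z => 13 * z + 2 * (z * cosh (2 * z))
      - 15 / 2 * sinh (2 * z) + 3 * (z ^ 2 * sinh (2 * z)))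
      (f' := fun z => 13 - 13 * cosh (2 * z) + 10 * (z * sinh (2 * z))
      + 6 * (z ^ 2 * cosh (2 * z)))
      (fun x => by
        have h := ((((hasDerivAt_id x).const_mul 13).add
          (((hasDerivAt_id x).mul (hC x)).const_mul 2)).sub ((hS x).const_mul (15 / 2))).add
          (((hsq x).mul (hS x)).const_mul 3)
        refine h.congr_deriv ?_
        simp
        ring) (by simp) (B := z) (fun x hx _ => h1 x hx.le) hz le_rfl
    simpa using this
  have := nonneg_of_hasDerivAt
    (f := fun z => 15 * (z * cosh z - sinh z) - (5 - 2 * z ^ 2) * sinh z ^ 3)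
    (f' := fun z => sinh z * (15 * z + 4 * z * sinh z ^ 2 - 3 * (5 - 2 * z ^ 2) * (sinh z * cosh z)))
    (fun x => by
      have h := ((((hasDerivAt_id x).mul (hasDerivAt_cosh x)).sub (hasDerivAt_sinh x)).const_mul
        15).sub ((((hsq x).const_mul 2).const_sub 5).mul ((hasDerivAt_sinh x).pow 3))
      refine h.congr_deriv ?_
      simp
      ring) (by simp) (B := z) (fun x hx _ => by
        have h3 := h2 x hx.le
        apply mul_nonneg (sinh_nonneg_iff.2 hx.le)
        have e1 : sinh (2 * x) = 2 * sinh x * cosh x := sinh_two_mul x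
        have e2 : cosh (2 * x) = 2 * sinh x ^ 2 + 1 := by
          rw [cosh_two_mul, cosh_sq]; ring
        rw [e1, e2] at h3
        nlinarith) hz le_rfl
  linarith

end C048
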