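import Pool.Agent.helper70.KU.DB
import Pool.Agent.helper35.KU.Ineq

/-! Lower bound of `E` on `π/4 ≤ nθ ≤ 2` (module ELL of MP_c048c3_co). -/

namespace C048

open Finset Real

/-- `f(b) - f(2b) ≥ sin²(bθ/2) / (2 cosh²(bτ/2))` -/
lemma fE_sub_two {τ θ : ℝ} (hτ : 0 < τ) {b : ℕ} (hb : 1 ≤ b) :
    sin (b * θ / 2) ^ 2 / (2 * cosh (b * τ / 2) ^ 2) ≤ fE τ θ b - fE τ θ (2 * b) := by
  have hb0 : (0 : ℝ) < b := by exact_mod_cast hb
  have hz : 0 < (b : ℝ) * τ / 2 := by positivity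
  set z := (b : ℝ) * τ / 2 with hzdef
  set a := (b : ℝ) * θ / 2 with hadef
  have hs : 0 < sinh z := sinh_pos_iff.2 hz
  have e1 : ((2 * b : ℕ) : ℝ) * θ / 2 = 2 * a := by rw [hadef]; push_cast; ring
  have e2 : ((2 * b : ℕ) : ℝ) * τ / 2 = 2 * z := by rw [hzdef]; push_cast; ring
  unfold fE
  rw [e1, e2, ← hzdef, ← hadef]
  have hc : cosh z ^ 2 = sinh z ^ 2 + 1 := cosh_sq z
  have hsin : sin (2 * a) ^ 2 = 4 * sin a ^ 2 * (1 - sin a ^ 2) := by
    rw [sin_two_mul]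
    have := sin_sq_add_cos_sq a
    have h2 : cos a ^ 2 = 1 - sin a ^ 2 := by linarith
    rw [← h2]; ring
  have hsinh : sinh (2 * z) ^ 2 = 4 * sinh z ^ 2 * (sinh z ^ 2 + 1) := by
    rw [sinh_two_mul, ← hc]; ring
  have hs1 : sin a ^ 2 ≤ 1 := sin_sq_le_one a
  have hq : 0 ≤ sin a ^ 2 := by positivity
  have hS : 0 < sinh z ^ 2 := by positivity
  have hx1 : 0 < 1 - sin a ^ 2 / cosh z ^ 2 := by
    rw [sub_pos, div_lt_one (by positivity), hc]
    linarith
  have hfac : 1 + sin (2 * a) ^ 2 / sinh (2 * z) ^ 2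
      = (1 + sin a ^ 2 / sinh z ^ 2) * (1 - sin a ^ 2 / cosh z ^ 2) := by
    rw [hsin, hsinh, hc]
    field_simp
    ring
  rw [hfac, log_mul (by positivity) hx1.ne']
  have hlog := log_le_sub_one_of_pos hx1
  have e3 : sin a ^ 2 / (2 * cosh z ^ 2) = (sin a ^ 2 / cosh z ^ 2) / 2 := by
    rw [div_div]; ring
  rw [e3]
  linarith

/-- the pairs -/
lemma fE_pair {τ θ : ℝ} (hτ : 0 < τ) (hθ : 0 < θ) {i m : ℕ} (hi : 1 ≤ i) (him : i ≤ m)
    (h : (i : ℝ) * θ / 2 ≤ 2) : fE τ θ m ≤ fE τ θ i := by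
  have hi0 : (0 : ℝ) < i := by exact_mod_cast hi
  have him' : (i : ℝ) ≤ m := by exact_mod_cast him
  have hm0 : (0 : ℝ) < m := hi0.trans_le him'
  have hzi : 0 < (i : ℝ) * τ / 2 := by positivity
  have hzm : (i : ℝ) * τ / 2 ≤ (m : ℝ) * τ / 2 := by
    have := mul_le_mul_of_nonneg_right him' hτ.le
    linarith
  have hsi : 0 < sinh ((i : ℝ) * τ / 2) := sinh_pos_iff.2 hzi
  have hsm : 0 < sinh ((m : ℝ) * τ / 2) := sinh_pos_iff.2 (hzi.trans_le hzm)
  have hsh := mul_sinh_le hzi.le hzm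
  -- `m sinh (iτ/2) ≤ i sinh (mτ/2)`
  have hsh' : (m : ℝ) * sinh ((i : ℝ) * τ / 2) ≤ i * sinh ((m : ℝ) * τ / 2) := by
    have h2 : (m : ℝ) * τ / 2 * sinh ((i : ℝ) * τ / 2) = (τ / 2) * (m * sinh ((i : ℝ) * τ / 2)) := by
      ring
    have h3 : (i : ℝ) * τ / 2 * sinh ((m : ℝ) * τ / 2) = (τ / 2) * (i * sinh ((m : ℝ) * τ / 2)) := by
      ring
    rw [h2, h3] at hsh
    exact le_of_mul_le_mul_left hsh (by positivity)
  have hw0 : 0 < (i : ℝ) * θ / 2 := by positivity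
  have hwm : (i : ℝ) * θ / 2 ≤ (m : ℝ) * θ / 2 := by
    have := mul_le_mul_of_nonneg_right him' hθ.le
    linarith
  have hpi := pi_gt_three
  have hsw : 0 < sin ((i : ℝ) * θ / 2) := sin_pos_of_pos_of_lt_pi hw0 (by linarith)
  -- `i |sin (mθ/2)| ≤ m sin (iθ/2)`
  have hsin : (i : ℝ) * |sin ((m : ℝ) * θ / 2)| ≤ m * sin ((i : ℝ) * θ / 2) := by
    rcases le_total ((m : ℝ) * θ / 2) π with hle | hge
    · have h1 := mul_sin_le hw0.le hwm hle
      have h2 : 0 ≤ sin ((m : ℝ) * θ / 2) :=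
        sin_nonneg_of_nonneg_of_le_pi (hw0.le.trans hwm) hle
      rw [abs_of_nonneg h2]
      have h3 : (i : ℝ) * θ / 2 * sin ((m : ℝ) * θ / 2) = (θ / 2) * (i * sin ((m : ℝ) * θ / 2)) := by
        ring
      have h4 : (m : ℝ) * θ / 2 * sin ((i : ℝ) * θ / 2) = (θ / 2) * (m * sin ((i : ℝ) * θ / 2)) := by
        ring
      rw [h3, h4] at h1
      exact le_of_mul_le_mul_left h1 (by positivity)
    · -- sin w / w ≥ sin 2 / 2 ≥ 1/π
      have h1 := mul_sin_le hw0.le h (by linarith : (2 : ℝ) ≤ π)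
      have h2 : (0.68 : ℝ) ≤ sin 2 := by
        have h5 : sin 2 = 2 * sin 1 * cos 1 := by
          rw [← sin_two_mul]; norm_num
        have h6 : 1 - (1:ℝ) ^ 3 / 6 ≤ sin 1 := by
          have := sin_gt_sub_cube (x := 1) one_pos
          linarith
        have h7 : 1 - (1:ℝ) ^ 2 / 2 ≤ cos 1 := one_sub_sq_div_two_le_cos
        have h8 : 0 < cos 1 := by linarith
        rw [h5]
        nlinarith
      have h3 : |sin ((m : ℝ) * θ / 2)| ≤ 1 := abs_sin_le_one _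
      have h4 : (i : ℝ) * |sin ((m : ℝ) * θ / 2)| ≤ i := by
        calc (i : ℝ) * |sin ((m : ℝ) * θ / 2)| ≤ i * 1 := by gcongr
          _ = i := mul_one _
      refine h4.trans ?_
      -- `i ≤ m sin w`, since `m θ / 2 ≥ π`, `sin w ≥ w sin 2 / 2`
      have h5 : (i : ℝ) * θ / 2 * 0.68 ≤ 2 * sin ((i : ℝ) * θ / 2) := by
        refine le_trans ?_ h1
        exact mul_le_mul_of_nonneg_left h2 hw0.le
      have h6 : (m : ℝ) * θ / 2 * ((i : ℝ) * θ / 2 * 0.68) ≤ (m : ℝ) * θ / 2 * (2 * sin ((i : ℝ) * θ / 2)) :=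
        mul_le_mul_of_nonneg_left h5 (by positivity)
      have h7 : (3 : ℝ) * ((i : ℝ) * θ / 2 * 0.68) ≤ (m : ℝ) * θ / 2 * ((i : ℝ) * θ / 2 * 0.68) :=
        mul_le_mul_of_nonneg_right (by linarith) (by positivity)
      have h8 : θ * (i : ℝ) ≤ θ * (m * sin ((i : ℝ) * θ / 2)) := by
        nlinarith
      exact le_of_mul_le_mul_left h8 hθ
  unfold fE
  apply div_le_div_of_nonneg_right _ (by norm_num : (0:ℝ) ≤ 2)
  apply log_le_log (by positivity)
  have hkey : sin ((m : ℝ) * θ / 2) ^ 2 / sinh ((m : ℝ) * τ / 2) ^ 2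
      ≤ sin ((i : ℝ) * θ / 2) ^ 2 / sinh ((i : ℝ) * τ / 2) ^ 2 := by
    rw [div_le_div_iff₀ (by positivity) (by positivity)]
    have h1 : |sin ((m : ℝ) * θ / 2)| * sinh ((i : ℝ) * τ / 2)
        ≤ sin ((i : ℝ) * θ / 2) * sinh ((m : ℝ) * τ / 2) := by
      have h2 := mul_le_mul hsin hsh' (by positivity) (by positivity)
      have h3 : (i : ℝ) * |sin ((m : ℝ) * θ / 2)| * (m * sinh ((i : ℝ) * τ / 2))
        = (i * m) * (|sin ((m : ℝ) * θ / 2)| * sinh ((i : ℝ) * τ / 2)) := by ring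
      have h4 : (m : ℝ) * sin ((i : ℝ) * θ / 2) * (i * sinh ((m : ℝ) * τ / 2))
        = (i * m) * (sin ((i : ℝ) * θ / 2) * sinh ((m : ℝ) * τ / 2)) := by ring
      rw [h3, h4] at h2
      exact le_of_mul_le_mul_left h2 (by positivity)
    have h5 := pow_le_pow_left₀ (by positivity) h1 2
    rw [mul_pow, mul_pow, sq_abs] at h5
    exact h5
  linarith

/-- telescoping: `2 sin(θ/2) ∑_{n < b ≤ n+k} cos(bθ) = sin((n+k+1/2)θ) - sin((n+1/2)θ)` -/
lemma sum_cos_eq (n k : ℕ) (θ : ℝ) :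
    2 * sin (θ / 2) * ∑ b ∈ Ioc n (n + k), cos (b * θ)
      = sin ((n + k + 1 / 2) * θ) - sin ((n + 1 / 2) * θ) := by
  induction k with
  | zero => simp
  | succ k ih =>
    rw [← Nat.add_assoc n k 1, Finset.sum_Ioc_succ_top (by omega), mul_add, ih]
    push_cast
    have e : 2 * sin (θ / 2) * cos ((n + k + 1) * θ)
        = sin ((n + (k + 1) + 1 / 2) * θ) - sin ((n + k + 1 / 2) * θ) := by
      have e1 : (n + (k + 1) + 1 / 2) * θ = (n + k + 1) * θ + θ / 2 := by ring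
      have e2 : (n + k + 1 / 2) * θ = (n + k + 1) * θ - θ / 2 := by ring
      rw [e1, e2, sin_add, sin_sub]
      ring
    rw [e]
    ring

/-- ELL -/
theorem E_ELL (n : ℕ) (hn : 2 ≤ n) {τ θ : ℝ} (hτ : 0 < τ) (h0 : Real.pi / 4 ≤ n * θ)
    (h1 : n * θ ≤ 2) :
    n / (2 * Real.cosh (3 * n * τ / 2) ^ 2) ≤ E n τ θ := by
  have hn2 : (2 : ℝ) ≤ n := by exact_mod_cast hn
  have hn0 : (0 : ℝ) < n := by linarith
  have hpi := pi_gt_three
  have hpi' := pi_gt_d2
  have hθ : 0 < θ := by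
    by_contra hcon
    push Not at hcon
    have := mul_nonpos_of_nonneg_of_nonpos hn0.le hcon
    linarith
  have hθ1 : θ ≤ 1 := by
    by_contra hcon
    push Not at hcon
    nlinarith
  unfold E
  rw [D_split]
  have hsecond : 0 ≤ ∑ i ∈ Icc 1 (2 * n), (fE τ θ i - fE τ θ (2 * n + 2 * i - 1)) := by
    apply Finset.sum_nonneg
    intro i hi
    rw [Finset.mem_Icc] at hi
    rw [sub_nonneg]
    apply fE_pair hτ hθ hi.1 (by omega)
    have : (i : ℝ) ≤ 2 * n := by exact_mod_cast hi.2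
    have := mul_le_mul_of_nonneg_right this hθ.le
    linarith
  have hsum : (n : ℝ) ≤ ∑ b ∈ Ioc n (3 * n), sin (b * θ / 2) ^ 2 := by
    have e1 : ∑ b ∈ Ioc n (3 * n), sin ((b : ℝ) * θ / 2) ^ 2
        = n - (∑ b ∈ Ioc n (3 * n), cos ((b : ℝ) * θ)) / 2 := by
      have : ∀ b : ℕ, sin ((b : ℝ) * θ / 2) ^ 2 = 1 / 2 - cos ((b : ℝ) * θ) / 2 := by
        intro b
        have h2 : (b : ℝ) * θ = 2 * ((b : ℝ) * θ / 2) := by ring
        conv_rhs => rw [h2]
        rw [sin_sq_eq_half_sub]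
      simp only [this, Finset.sum_sub_distrib, Finset.sum_div]
      simp only [Finset.sum_const, Nat.card_Ioc, nsmul_eq_mul]
      have : ((3 * n - n : ℕ) : ℝ) = 2 * n := by
        rw [Nat.cast_sub (by omega)]; push_cast; ring
      rw [this]
      ring
    rw [e1]
    have h3 := sum_cos_eq n (2 * n) θ
    have e2 : n + 2 * n = 3 * n := by ring
    rw [e2] at h3
    have e3 : sin (((n : ℝ) + (2 * n : ℕ) + 1 / 2) * θ) - sin (((n : ℝ) + 1 / 2) * θ)
        = 2 * (sin (n * θ) * cos ((2 * n + 1 / 2) * θ)) := by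
      rw [sin_sub_sin]
      push_cast
      have e4 : (((n : ℝ) + 2 * n + 1 / 2) * θ - (n + 1 / 2) * θ) / 2 = n * θ := by ring
      have e5 : (((n : ℝ) + 2 * n + 1 / 2) * θ + (n + 1 / 2) * θ) / 2 = (2 * n + 1 / 2) * θ := by
        ring
      rw [e4, e5]
      ring
    rw [e3] at h3
    have hsn : 0 ≤ sin (n * θ) :=
      sin_nonneg_of_nonneg_of_le_pi (by positivity) (by linarith)
    have hcn : cos ((2 * n + 1 / 2) * θ) ≤ 0 := by
      apply cos_nonpos_of_pi_div_two_le_of_le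
      · nlinarith
      · nlinarith
    have hst : 0 < sin (θ / 2) := sin_pos_of_pos_of_lt_pi (by linarith) (by linarith)
    have hneg : ∑ b ∈ Ioc n (3 * n), cos ((b : ℝ) * θ) ≤ 0 := by
      by_contra hcon
      push Not at hcon
      have h4 : 0 < 2 * sin (θ / 2) * ∑ b ∈ Ioc n (3 * n), cos ((b : ℝ) * θ) := by positivity
      rw [h3] at h4
      have := mul_nonpos_of_nonneg_of_nonpos hsn hcn
      linarith
    linarith
  have hfirst : n / (2 * Real.cosh (3 * n * τ / 2) ^ 2)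
      ≤ ∑ b ∈ Ioc n (3 * n), (fE τ θ b - fE τ θ (2 * b)) := by
    calc n / (2 * Real.cosh (3 * n * τ / 2) ^ 2)
        ≤ (∑ b ∈ Ioc n (3 * n), sin (b * θ / 2) ^ 2) / (2 * Real.cosh (3 * n * τ / 2) ^ 2) := by
          apply div_le_div_of_nonneg_right hsum (by positivity)
      _ = ∑ b ∈ Ioc n (3 * n), sin (b * θ / 2) ^ 2 / (2 * Real.cosh (3 * n * τ / 2) ^ 2) := by
          rw [Finset.sum_div]
      _ ≤ _ := by
          apply Finset.sum_le_sum
          intro b hb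
          rw [Finset.mem_Ioc] at hb
          refine le_trans ?_ (fE_sub_two hτ (by omega))
          apply div_le_div_of_nonneg_left (by positivity)
            (by have := cosh_pos ((b : ℝ) * τ / 2); positivity)
          have hb3 : (b : ℝ) ≤ 3 * n := by exact_mod_cast hb.2
          have hle : cosh ((b : ℝ) * τ / 2) ≤ cosh (3 * n * τ / 2) := by
            rw [cosh_le_cosh, abs_of_nonneg (by positivity), abs_of_nonneg (by positivity)]
            have := mul_le_mul_of_nonneg_right hb3 hτ.le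
            linarith
          have := pow_le_pow_left₀ (cosh_pos _).le hle 2
          linarith
  linarith

end C048
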