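import Pool.Agent.helper35.KU.VB

/-! Lower bound of `E` on `0 ≤ 3nθ ≤ π` (module PI of MP_c048c3_co). -/

namespace C048

open Finset Real

lemma hasDerivAt_logq {c z : ℝ} (hz : 0 < z) :
    HasDerivAt (fun z => log (1 + sin (c * z) ^ 2 / sinh z ^ 2) / 2)
      ((c * sin (c * z) * cos (c * z) * sinh z - sin (c * z) ^ 2 * cosh z)
        / (sinh z * (sinh z ^ 2 + sin (c * z) ^ 2))) z := by
  have hs : 0 < sinh z := sinh_pos_iff.2 hz
  have hc : HasDerivAt (fun z : ℝ => c * z) c z := by
    simpa using (hasDerivAt_id z).const_mul c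
  have hne : sinh z ^ 2 ≠ 0 := by positivity
  have h1 := ((hc.sin.pow 2).div ((hasDerivAt_sinh z).pow 2) (by simpa using hne)).const_add 1
  have hp : 1 + sin (c * z) ^ 2 / sinh z ^ 2 ≠ 0 := by positivity
  have h := (h1.log (by simpa using hp)).div_const 2
  have hfun : (fun z => log (1 + sin (c * z) ^ 2 / sinh z ^ 2) / 2)
    = (fun x => log (1 + ((fun z => sin (c * z)) ^ 2 / sinh ^ 2) x) / 2) := by
    funext x; simp
  rw [hfun]
  refine h.congr_deriv ?_
  simp only [Pi.pow_apply, Pi.div_apply]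
  have hp2 : sinh z ^ 2 + sin (c * z) ^ 2 ≠ 0 := by positivity
  field_simp
  simp
  ring

/-- PI -/
theorem E_PI (n : ℕ) (hn : 1 ≤ n) {τ θ : ℝ} (hτ : 0 < τ) (h0 : 0 ≤ θ) (h1 : 3 * n * θ ≤ Real.pi) :
    V n τ * Real.sin (3 * n * θ) ^ 2 / (18 * (n : ℝ) ^ 2) ≤ E n τ θ := by
  have hn0 : (0 : ℝ) < n := by exact_mod_cast hn
  rcases h0.eq_or_lt with rfl | hθ
  · have : E n τ 0 = 0 := by
      unfold E D fE
      simp
    rw [this]
    simp
  set b : ℝ := 3 * n * θ with hb
  have hb0 : 0 < b := by positivity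
  have key : 0 ≤ D n (fun i => fE τ θ i - (sin b ^ 2 / (18 * (n : ℝ) ^ 2)) * ka τ i) := by
    apply D_nonneg
    intro i j hi hij hj
    have hi0 : (0 : ℝ) < i := by exact_mod_cast hi
    have hz : 0 < (i : ℝ) * τ / 2 := by positivity
    have hzz : (i : ℝ) * τ / 2 ≤ (j : ℝ) * τ / 2 := by
      have : (i : ℝ) ≤ j := by exact_mod_cast hij
      have := mul_le_mul_of_nonneg_right this hτ.le
      linarith
    have hj6 : (j : ℝ) ≤ 6 * n := by exact_mod_cast hj
    have h := anti_of_deriv (f := fun z => log (1 + sin (θ / τ * z) ^ 2 / sinh z ^ 2) / 2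
        - (sin b ^ 2 / (18 * (n : ℝ) ^ 2)) * ((z ^ 2 / sinh z ^ 2) / τ ^ 2))
      (f' := fun z => ((θ / τ) * sin (θ / τ * z) * cos (θ / τ * z) * sinh z
          - sin (θ / τ * z) ^ 2 * cosh z) / (sinh z * (sinh z ^ 2 + sin (θ / τ * z) ^ 2))
        - (sin b ^ 2 / (18 * (n : ℝ) ^ 2)) * ((2 * z * (sinh z - z * cosh z) / sinh z ^ 3) / τ ^ 2))
      hz hzz
      (fun z hz => (hasDerivAt_logq hz).sub (((hasDerivAt_q hz).div_const _).const_mul _))
      (fun z hz hz1 hz2 => by
        have hs : 0 < sinh z := sinh_pos_iff.2 hz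
        set a : ℝ := θ / τ * z with ha
        have ha0 : 0 < a := by positivity
        have hab : a < b := by
          rw [ha, hb]
          have h3 : z < 3 * n * τ := by
            have := mul_le_mul_of_nonneg_right hj6 hτ.le
            linarith
          calc θ / τ * z < θ / τ * (3 * n * τ) := by
                apply mul_lt_mul_of_pos_left h3 (by positivity)
            _ = 3 * n * θ := by field_simp
        have hapi : a < π := hab.trans_le h1
        have hsa : 0 < sin a := sin_pos_of_pos_of_lt_pi ha0 hapi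
        have hlam := mul_sin_le ha0.le hab.le h1
        have hsb : 0 ≤ sin b := sin_nonneg_of_nonneg_of_le_pi hb0.le h1
        -- `sin² b / b² ≤ sin² a / a²`
        have hlam2 : sin b ^ 2 / b ^ 2 ≤ sin a ^ 2 / a ^ 2 := by
          rw [div_le_div_iff₀ (by positivity) (by positivity)]
          have : (a * sin b) ^ 2 ≤ (b * sin a) ^ 2 := by
            apply pow_le_pow_left₀ (by positivity) hlam
          linarith [this, mul_pow a (sin b) 2, mul_pow b (sin a) 2]
        have hI1 := sin_cube_le ha0.le hapi.le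
        have hI2 := mul_cosh_sub_sinh_le hz.le
        have hI3 := sinh_le_mul_cosh hz.le
        -- the second term
        have e2 : (sin b ^ 2 / (18 * (n : ℝ) ^ 2)) * ((2 * z * (sinh z - z * cosh z) / sinh z ^ 3) / τ ^ 2)
            = -((sin b ^ 2 / b ^ 2) * (a ^ 2 * (z * cosh z - sinh z) / (z * sinh z ^ 3))) := by
          rw [hb, ha]
          field_simp
          ring
        rw [e2]
        have hle : (sin b ^ 2 / b ^ 2) * (a ^ 2 * (z * cosh z - sinh z) / (z * sinh z ^ 3))
            ≤ (sin a ^ 2 / a ^ 2) * (a ^ 2 * (z * cosh z - sinh z) / (z * sinh z ^ 3)) := by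
          apply mul_le_mul_of_nonneg_right hlam2
          apply div_nonneg _ (by positivity)
          apply mul_nonneg (by positivity)
          linarith
        have e3 : (sin a ^ 2 / a ^ 2) * (a ^ 2 * (z * cosh z - sinh z) / (z * sinh z ^ 3))
            = sin a ^ 2 * (z * cosh z - sinh z) / (z * sinh z ^ 3) := by
          field_simp
        have e4 : (θ / τ) = a / z := by
          rw [ha]; field_simp
        rw [e4]
        -- main inequality
        have hmain : (a / z * sin a * cos a * sinh z - sin a ^ 2 * cosh z)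
            / (sinh z * (sinh z ^ 2 + sin a ^ 2))
            + sin a ^ 2 * (z * cosh z - sinh z) / (z * sinh z ^ 3) ≤ 0 := by
          have e5 : (a / z * sin a * cos a * sinh z - sin a ^ 2 * cosh z)
            / (sinh z * (sinh z ^ 2 + sin a ^ 2))
            + sin a ^ 2 * (z * cosh z - sinh z) / (z * sinh z ^ 3)
            = -(sin a * (sinh z ^ 3 * (sin a - a * cos a) - sin a ^ 3 * (z * cosh z - sinh z)))
              / (z * sinh z ^ 3 * (sinh z ^ 2 + sin a ^ 2)) := by
            have hp2 : sinh z ^ 2 + sin a ^ 2 ≠ 0 := by positivity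
            field_simp
            ring
          rw [e5]
          apply div_nonpos_of_nonpos_of_nonneg _ (by positivity)
          rw [neg_nonpos]
          apply mul_nonneg hsa.le
          have t1 : sinh z ^ 3 * (sin a ^ 3 / 3) ≤ sinh z ^ 3 * (sin a - a * cos a) :=
            mul_le_mul_of_nonneg_left hI1 (by positivity)
          have t2 : sin a ^ 3 * (z * cosh z - sinh z) ≤ sin a ^ 3 * (sinh z ^ 3 / 3) :=
            mul_le_mul_of_nonneg_left hI2 (by positivity)
          linarith
        linarith)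
    have e : ∀ k : ℕ, fE τ θ k - (sin b ^ 2 / (18 * (n : ℝ) ^ 2)) * ka τ k
        = log (1 + sin (θ / τ * ((k : ℝ) * τ / 2)) ^ 2 / sinh ((k : ℝ) * τ / 2) ^ 2) / 2
        - (sin b ^ 2 / (18 * (n : ℝ) ^ 2)) *
          (((k : ℝ) * τ / 2) ^ 2 / sinh ((k : ℝ) * τ / 2) ^ 2 / τ ^ 2) := by
      intro k
      rw [ka_eq hτ]
      unfold fE
      have : θ / τ * ((k : ℝ) * τ / 2) = k * θ / 2 := by field_simp
      rw [this]
    rw [e i, e j]
    exact h
  rw [D_sub, D_mul] at key
  have e : D n (fun i => ka τ i) = V n τ := rfl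
  have e' : D n (fun i => fE τ θ i) = E n τ θ := rfl
  rw [e, e'] at key
  have : V n τ * sin b ^ 2 / (18 * (n : ℝ) ^ 2) = (sin b ^ 2 / (18 * (n : ℝ) ^ 2)) * V n τ := by ring
  linarith

end C048
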