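import Pool.Agent.helper70.KU.DB
import Pool.Agent.helper35.KU.Ineq

/-! Bounds of the variance `V` (module VB of MP_c048c3_co). -/

namespace C048

open Finset Real

/-- antitone on an interval of positive reals, from the derivative -/
lemma anti_of_deriv {f f' : ℝ → ℝ} {a b : ℝ} (ha : 0 < a) (hab : a ≤ b)
    (hf : ∀ x, 0 < x → HasDerivAt f (f' x) x) (h : ∀ x, 0 < x → a < x → x < b → f' x ≤ 0) :
    f b ≤ f a := by
  have hm : AntitoneOn f (Set.Icc a b) := by
    apply antitoneOn_of_deriv_nonpos (convex_Icc a b)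
    · exact fun y hy => (hf y (ha.trans_le hy.1)).continuousAt.continuousWithinAt
    · rw [interior_Icc]
      exact fun y hy => (hf y (ha.trans hy.1)).differentiableAt.differentiableWithinAt
    · intro y hy
      rw [interior_Icc] at hy
      rw [(hf y (ha.trans hy.1)).deriv]
      exact h y (ha.trans hy.1) hy.1 hy.2
  exact hm ⟨le_rfl, hab⟩ ⟨hab, le_rfl⟩ hab

lemma hasDerivAt_q {z : ℝ} (hz : 0 < z) : HasDerivAt (fun z => z ^ 2 / sinh z ^ 2)
    (2 * z * (sinh z - z * cosh z) / sinh z ^ 3) z := by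
  have hs : 0 < sinh z := sinh_pos_iff.2 hz
  have h1 : HasDerivAt (fun x : ℝ => x ^ 2) (2 * z) z := by
    simpa using hasDerivAt_pow 2 z
  have hne : sinh z ^ 2 ≠ 0 := by positivity
  have h := h1.div ((hasDerivAt_sinh z).pow 2) (by simpa using hne)
  refine h.congr_deriv ?_
  simp only [Pi.pow_apply]
  field_simp
  simp
  ring

lemma ka_eq {τ : ℝ} (hτ : 0 < τ) (i : ℕ) :
    ka τ i = (((i : ℝ) * τ / 2) ^ 2 / sinh ((i : ℝ) * τ / 2) ^ 2) / τ ^ 2 := by
  unfold ka
  rw [show ((i : ℝ) * τ / 2) ^ 2 = (i : ℝ) ^ 2 * τ ^ 2 / 4 by ring]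
  rw [div_div, div_div]
  field_simp

/-- VB1 -/
theorem V_le (n : ℕ) {τ : ℝ} (hτ : 0 < τ) : V n τ ≤ S2 n / 12 := by
  have key : 0 ≤ D n (fun i => -((1 / 12) * (i : ℝ) ^ 2) - ka τ i) := by
    apply D_nonneg
    intro i j hi hij hj
    have hi0 : (0 : ℝ) < i := by exact_mod_cast hi
    have hz : 0 < (i : ℝ) * τ / 2 := by positivity
    have hzz : (i : ℝ) * τ / 2 ≤ (j : ℝ) * τ / 2 := by
      have : (i : ℝ) ≤ j := by exact_mod_cast hij
      have := mul_le_mul_of_nonneg_right this hτ.le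
      linarith
    have h := anti_of_deriv (f := fun z => -(z ^ 2 / sinh z ^ 2 + z ^ 2 / 3))
      (f' := fun z => -(2 * z * (sinh z - z * cosh z) / sinh z ^ 3 + 2 * z / 3)) hz hzz
      (fun z hz => by
        have h1 : HasDerivAt (fun x : ℝ => x ^ 2) (2 * z) z := by
          simpa using hasDerivAt_pow 2 z
        exact ((hasDerivAt_q hz).add (h1.div_const 3)).neg)
      (fun z hz _ _ => by
        have hs : 0 < sinh z := sinh_pos_iff.2 hz
        have h1 := mul_cosh_sub_sinh_le hz.le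
        have : 0 ≤ 2 * z * (sinh z - z * cosh z) / sinh z ^ 3 + 2 * z / 3 := by
          have e : 2 * z * (sinh z - z * cosh z) / sinh z ^ 3 + 2 * z / 3
            = 2 * z * (sinh z ^ 3 / 3 - (z * cosh z - sinh z)) / sinh z ^ 3 := by
            field_simp
            ring
          rw [e]
          apply div_nonneg _ (by positivity)
          apply mul_nonneg (by positivity)
          linarith
        linarith)
    rw [ka_eq hτ, ka_eq hτ]
    have e : ∀ k : ℕ, -((1 / 12) * (k : ℝ) ^ 2)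
        - (((k : ℝ) * τ / 2) ^ 2 / sinh ((k : ℝ) * τ / 2) ^ 2) / τ ^ 2
        = -(((k : ℝ) * τ / 2) ^ 2 / sinh ((k : ℝ) * τ / 2) ^ 2 + ((k : ℝ) * τ / 2) ^ 2 / 3) / τ ^ 2 := by
      intro k
      field_simp
      ring
    rw [e i, e j]
    exact div_le_div_of_nonneg_right h (by positivity)
  have e := D_sub n (fun i => -((1 / 12) * (i : ℝ) ^ 2)) (ka τ)
  rw [e] at key
  have e2 : D n (fun i => -((1 / 12) * (i : ℝ) ^ 2)) = S2 n / 12 := by
    have := D_mul n (-(1 / 12)) (fun i => (i : ℝ) ^ 2)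
    rw [D_sq] at this
    rw [show (fun i : ℕ => -((1 / 12) * (i : ℝ) ^ 2)) = (fun i : ℕ => -(1 / 12) * (i : ℝ) ^ 2) by
      funext i; ring, this]
    ring
  rw [e2] at key
  unfold V
  linarith

/-- VB2 -/
theorem V_ge (n : ℕ) {τ : ℝ} (hτ : 0 < τ) : S2 n / 12 - τ ^ 2 * S4 n / 240 ≤ V n τ := by
  have key : 0 ≤ D n (fun i => ka τ i + (1 / 12 * (i : ℝ) ^ 2 - τ ^ 2 / 240 * (i : ℝ) ^ 4)) := by
    apply D_nonneg
    intro i j hi hij hj
    have hi0 : (0 : ℝ) < i := by exact_mod_cast hi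
    have hz : 0 < (i : ℝ) * τ / 2 := by positivity
    have hzz : (i : ℝ) * τ / 2 ≤ (j : ℝ) * τ / 2 := by
      have : (i : ℝ) ≤ j := by exact_mod_cast hij
      have := mul_le_mul_of_nonneg_right this hτ.le
      linarith
    have h := anti_of_deriv (f := fun z => z ^ 2 / sinh z ^ 2 + (z ^ 2 / 3 - z ^ 4 / 15))
      (f' := fun z => 2 * z * (sinh z - z * cosh z) / sinh z ^ 3 + (2 * z / 3 - 4 * z ^ 3 / 15))
      hz hzz
      (fun z hz => by
        have h1 : HasDerivAt (fun x : ℝ => x ^ 2) (2 * z) z := by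
          simpa using hasDerivAt_pow 2 z
        have h2 : HasDerivAt (fun x : ℝ => x ^ 4) (4 * z ^ 3) z := by
          simpa using hasDerivAt_pow 4 z
        exact ((hasDerivAt_q hz).add ((h1.div_const 3).sub (h2.div_const 15))))
      (fun z hz _ _ => by
        have hs : 0 < sinh z := sinh_pos_iff.2 hz
        have h1 := quartic_ineq hz.le
        have e : 2 * z * (sinh z - z * cosh z) / sinh z ^ 3 + (2 * z / 3 - 4 * z ^ 3 / 15)
            = -(2 * z * (15 * (z * cosh z - sinh z) - (5 - 2 * z ^ 2) * sinh z ^ 3))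
              / (15 * sinh z ^ 3) := by
            field_simp
            ring
        rw [e]
        apply div_nonpos_of_nonpos_of_nonneg _ (by positivity)
        rw [neg_nonpos]
        apply mul_nonneg (by positivity)
        linarith)
    rw [ka_eq hτ, ka_eq hτ]
    have e : ∀ k : ℕ, (((k : ℝ) * τ / 2) ^ 2 / sinh ((k : ℝ) * τ / 2) ^ 2) / τ ^ 2
          + (1 / 12 * (k : ℝ) ^ 2 - τ ^ 2 / 240 * (k : ℝ) ^ 4)
        = (((k : ℝ) * τ / 2) ^ 2 / sinh ((k : ℝ) * τ / 2) ^ 2 + (((k : ℝ) * τ / 2) ^ 2 / 3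
          - ((k : ℝ) * τ / 2) ^ 4 / 15)) / τ ^ 2 := by
      intro k
      rw [add_div]
      congr 1
      field_simp
      ring
    rw [e i, e j]
    exact div_le_div_of_nonneg_right h (by positivity)
  have e := D_add n (ka τ) (fun i => 1 / 12 * (i : ℝ) ^ 2 - τ ^ 2 / 240 * (i : ℝ) ^ 4)
  rw [e] at key
  have e2 := D_sub n (fun i => 1 / 12 * (i : ℝ) ^ 2) (fun i => τ ^ 2 / 240 * (i : ℝ) ^ 4)
  rw [e2, D_mul n _ (fun i => (i : ℝ) ^ 2), D_mul n _ (fun i => (i : ℝ) ^ 4), D_sq, D_four] at key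
  unfold V
  linarith

lemma deriv_ka {x τ : ℝ} (hx : 0 < x) (hτ : 0 < τ) :
    HasDerivAt (fun x => x ^ 2 / (4 * sinh (x * τ / 2) ^ 2))
      (-(x / 2 * ((x * τ / 2 * cosh (x * τ / 2) - sinh (x * τ / 2)) / sinh (x * τ / 2) ^ 3))) x := by
  have hz : 0 < x * τ / 2 := by positivity
  have hs : 0 < sinh (x * τ / 2) := sinh_pos_iff.2 hz
  have h1 : HasDerivAt (fun x : ℝ => x ^ 2) (2 * x) x := by
    simpa using hasDerivAt_pow 2 x
  have h0 : HasDerivAt (fun x : ℝ => x * τ / 2) (τ / 2) x := by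
    simpa using ((hasDerivAt_id x).mul_const τ).div_const 2
  have hne : sinh (x * τ / 2) ^ 2 ≠ 0 := by positivity
  have h := h1.div ((h0.sinh.pow 2).const_mul 4) (by simpa using hne)
  refine h.congr_deriv ?_
  simp only [Pi.pow_apply]
  field_simp
  simp
  ring

lemma anti_cubic {z w : ℝ} (hz : 0 < z) (hzw : z ≤ w) :
    (w * cosh w - sinh w) / sinh w ^ 3 ≤ (z * cosh z - sinh z) / sinh z ^ 3 := by
  refine anti_of_deriv (f := fun z => (z * cosh z - sinh z) / sinh z ^ 3)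
    (f' := fun z => (z * sinh z * sinh z ^ 3
      - (z * cosh z - sinh z) * (3 * sinh z ^ 2 * cosh z)) / (sinh z ^ 3) ^ 2) hz hzw ?_ ?_
  · intro x hx
    have hs : 0 < sinh x := sinh_pos_iff.2 hx
    have hne : sinh x ^ 3 ≠ 0 := by positivity
    have h := (((hasDerivAt_id x).mul (hasDerivAt_cosh x)).sub (hasDerivAt_sinh x)).div
      ((hasDerivAt_sinh x).pow 3) (by simpa using hne)
    refine h.congr_deriv ?_
    simp
  · intro x hx _ _
    have hs : 0 < sinh x := sinh_pos_iff.2 hx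
    apply div_nonpos_of_nonpos_of_nonneg _ (by positivity)
    have h1 := three_sinh_le (s := 2 * x) (by positivity)
    have e1 : sinh (2 * x) = 2 * sinh x * cosh x := sinh_two_mul x
    have e2 : cosh (2 * x) = 2 * sinh x ^ 2 + 1 := by
      rw [cosh_two_mul, cosh_sq]; ring
    rw [e1, e2] at h1
    have e3 : x * sinh x * sinh x ^ 3 - (x * cosh x - sinh x) * (3 * sinh x ^ 2 * cosh x)
      = sinh x ^ 2 * (x * sinh x ^ 2 - 3 * x * cosh x ^ 2 + 3 * sinh x * cosh x) := by ring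
    rw [e3]
    apply mul_nonpos_of_nonneg_of_nonpos (by positivity)
    rw [cosh_sq]
    linarith

/-- VB3 -/
theorem V_anti (n : ℕ) {τ τ' : ℝ} (hτ : 0 < τ) (h : τ ≤ τ') : V n τ' ≤ V n τ := by
  have hτ' : 0 < τ' := hτ.trans_le h
  have key : 0 ≤ D n (fun i => ka τ i - ka τ' i) := by
    apply D_nonneg
    intro i j hi hij hj
    have hi0 : (0 : ℝ) < i := by exact_mod_cast hi
    have hij' : (i : ℝ) ≤ j := by exact_mod_cast hij
    refine anti_of_deriv (f := fun x => x ^ 2 / (4 * sinh (x * τ / 2) ^ 2)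
        - x ^ 2 / (4 * sinh (x * τ' / 2) ^ 2))
      (f' := fun x =>
        -(x / 2 * ((x * τ / 2 * cosh (x * τ / 2) - sinh (x * τ / 2)) / sinh (x * τ / 2) ^ 3))
        - -(x / 2 * ((x * τ' / 2 * cosh (x * τ' / 2) - sinh (x * τ' / 2)) / sinh (x * τ' / 2) ^ 3)))
      hi0 hij' (fun x hx => (deriv_ka hx hτ).sub (deriv_ka hx hτ')) (fun x hx _ _ => ?_)
    have h1 := anti_cubic (z := x * τ / 2) (w := x * τ' / 2) (by positivity) (by
      have := mul_le_mul_of_nonneg_left h hx.le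
      linarith)
    have h2 := mul_le_mul_of_nonneg_left h1 (show 0 ≤ x / 2 by positivity)
    linarith
  rw [D_sub] at key
  unfold V
  have e : D n (fun i => ka τ i) = D n (ka τ) := rfl
  have e' : D n (fun i => ka τ' i) = D n (ka τ') := rfl
  linarith

end C048
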